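import Mathlib
import Pool.Agent.H376R3.PC.Defs
import Pool.Agent.Helper520.CD.Myc

set_option autoImplicit false

universe u

namespace Pool.Agent.H973R3.PC2

open Cardinal Topology Set Filter Pool.Agent.H376R3.PC

section

variable {K : Type u} [AddCommGroup K] [TopologicalSpace K] [IsTopologicalAddGroup K]

theorem exists_half (U : Set K) (hU : U ∈ 𝓝 (0 : K)) :
    ∃ V : Set K, IsOpen V ∧ (0 : K) ∈ V ∧ (∀ x ∈ V, -x ∈ V) ∧ (∀ x ∈ V, ∀ y ∈ V, x + y ∈ U) := by
  obtain ⟨V, hV1, hV2, hV3⟩ := exists_open_nhds_zero_half hU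
  refine ⟨V ∩ {x | -x ∈ V}, hV1.inter (hV1.preimage continuous_neg), ⟨hV2, by simpa using hV2⟩,
    ?_, ?_⟩
  · intro x hx
    refine ⟨hx.2, ?_⟩
    simpa using hx.1
  · intro x hx y hy
    exact hV3 x hx.1 y hy.1

/-- a chain of symmetric open neighbourhoods inside a given sequence of neighbourhoods -/
theorem exists_chain (O : ℕ → Set K) (hO : ∀ n, O n ∈ 𝓝 (0 : K)) :
    ∃ V : ℕ → Set K, (∀ n, IsOpen (V n)) ∧ (∀ n, (0 : K) ∈ V n) ∧ (∀ n, ∀ x ∈ V n, -x ∈ V n) ∧
      (∀ n, ∀ x ∈ V (n + 1), ∀ y ∈ V (n + 1), x + y ∈ V n) ∧ (∀ n, V (n + 1) ⊆ O n) := by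
  have step : ∀ (n : ℕ) (U : {U : Set K // IsOpen U ∧ (0 : K) ∈ U ∧ (∀ x ∈ U, -x ∈ U)}),
      ∃ W : {U : Set K // IsOpen U ∧ (0 : K) ∈ U ∧ (∀ x ∈ U, -x ∈ U)},
        (∀ x ∈ W.1, ∀ y ∈ W.1, x + y ∈ U.1 ∩ O n) := by
    intro n U
    obtain ⟨V, h1, h2, h3, h4⟩ := exists_half (U.1 ∩ O n)
      (Filter.inter_mem (U.2.1.mem_nhds U.2.2.1) (hO n))
    exact ⟨⟨V, h1, h2, h3⟩, h4⟩
  choose F hF using step
  let V : ℕ → {U : Set K // IsOpen U ∧ (0 : K) ∈ U ∧ (∀ x ∈ U, -x ∈ U)} := fun n =>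
    Nat.rec ⟨Set.univ, isOpen_univ, Set.mem_univ _, fun x _ => Set.mem_univ _⟩ (fun n U => F n U) n
  refine ⟨fun n => (V n).1, fun n => (V n).2.1, fun n => (V n).2.2.1, fun n => (V n).2.2.2, ?_, ?_⟩
  · intro n x hx y hy
    exact (hF n (V n) x hx y hy).1
  · intro n x hx
    have := (hF n (V n) x hx 0 (V (n + 1)).2.2.1).2
    simpa using this

/-- the subgroup given by a chain -/
def sub (V : ℕ → Set K) (h0 : ∀ n, (0 : K) ∈ V n) (hn : ∀ n, ∀ x ∈ V n, -x ∈ V n)
    (ha : ∀ n, ∀ x ∈ V (n + 1), ∀ y ∈ V (n + 1), x + y ∈ V n) : AddSubgroup K where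
  carrier := ⋂ n, V n
  zero_mem' := Set.mem_iInter.2 h0
  add_mem' := by
    intro x y hx hy
    rw [Set.mem_iInter] at hx hy ⊢
    intro n
    exact ha n x (hx _) y (hy _)
  neg_mem' := by
    intro x hx
    rw [Set.mem_iInter] at hx ⊢
    intro n
    exact hn n x (hx n)

theorem closure_sub (V : ℕ → Set K) (hV : ∀ n, IsOpen (V n)) (h0 : ∀ n, (0 : K) ∈ V n)
    (hn : ∀ n, ∀ x ∈ V n, -x ∈ V n)
    (ha : ∀ n, ∀ x ∈ V (n + 1), ∀ y ∈ V (n + 1), x + y ∈ V n) (n : ℕ) :
    closure (V (n + 1)) ⊆ V n := by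
  intro x hx
  rw [mem_closure_iff] at hx
  obtain ⟨y, hy1, hy2⟩ := hx ((fun y => y - x) ⁻¹' V (n + 1))
    ((hV (n + 1)).preimage (continuous_id.sub continuous_const)) (by simpa using h0 (n + 1))
  have h1 : -(y - x) ∈ V (n + 1) := hn _ _ hy1
  have h2 := ha n y hy2 _ h1
  have h3 : y + -(y - x) = x := by abel
  rwa [h3] at h2

theorem chain_anti (V : ℕ → Set K) (h0 : ∀ n, (0 : K) ∈ V n)
    (ha : ∀ n, ∀ x ∈ V (n + 1), ∀ y ∈ V (n + 1), x + y ∈ V n) : Antitone V := by
  apply antitone_nat_of_succ_le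
  intro n x hx
  have := ha n x hx 0 (h0 _)
  simpa using this

/-- a Gdelta closed subgroup with completely metrizable quotient inside every countable family
of neighbourhoods of `0` -/
theorem exists_gdSub [CompactSpace K] [T2Space K] (O : ℕ → Set K) (hO : ∀ n, O n ∈ 𝓝 (0 : K)) :
    ∃ Q : AddSubgroup K, GdSub Q ∧ (∀ n, (Q : Set K) ⊆ O n) ∧
      TopologicalSpace.IsCompletelyMetrizableSpace (K ⧸ Q) := by
  obtain ⟨V, hV, h0, hn, ha, hVO⟩ := exists_chain O hO
  set Q := sub V h0 hn ha with hQ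
  have hQV : (Q : Set K) = ⋂ n, V n := rfl
  have hanti := chain_anti V h0 ha
  have hcl : ∀ n, closure (V (n + 1)) ⊆ V n := closure_sub V hV h0 hn ha
  have hQcl : (Q : Set K) = ⋂ n, closure (V n) := by
    rw [hQV]
    apply Set.Subset.antisymm
    · exact Set.iInter_mono fun n => subset_closure
    · intro x hx
      rw [Set.mem_iInter] at hx ⊢
      exact fun n => hcl n (hx (n + 1))
  have hQclosed : IsClosed (Q : Set K) := by
    rw [hQcl]; exact isClosed_iInter fun n => isClosed_closure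
  refine ⟨Q, ⟨hQclosed, ?_⟩, ?_, ?_⟩
  · rw [hQV]; exact IsGδ.iInter_of_isOpen hV
  · intro n x hx
    rw [hQV, Set.mem_iInter] at hx
    exact hVO n (hx (n + 1))
  · haveI : IsClosed (Q : Set K) := hQclosed
    -- countable basis
    have hbasis : (𝓝 (0 : K ⧸ Q)).HasBasis (fun _ : ℕ => True)
        (fun n => (QuotientAddGroup.mk : K → K ⧸ Q) '' V n) := by
      rw [Filter.hasBasis_iff]
      intro t
      constructor
      · intro ht
        obtain ⟨O', hO't, hO'o, hO'0⟩ := mem_nhds_iff.1 ht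
        have hpre : IsOpen ((QuotientAddGroup.mk : K → K ⧸ Q) ⁻¹' O') :=
          hO'o.preimage continuous_quotient_mk'
        have hsub : (⋂ n, closure (V n)) ⊆ (QuotientAddGroup.mk : K → K ⧸ Q) ⁻¹' O' := by
          rw [← hQcl]
          intro x hx
          have : ((x : K) : K ⧸ Q) = 0 := (QuotientAddGroup.eq_zero_iff x).2 hx
          rw [Set.mem_preimage, this]
          exact hO'0
        obtain ⟨n, hn'⟩ := exists_subset_nhds_of_isCompact' (V := fun n => closure (V n))
          (by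
            apply Antitone.directed_ge
            intro a b hab
            exact closure_mono (hanti hab))
          (fun n => isClosed_closure.isCompact) (fun n => isClosed_closure)
          (fun x hx => hpre.mem_nhds (hsub hx))
        refine ⟨n, trivial, ?_⟩
        rintro _ ⟨x, hx, rfl⟩
        exact hO't (hn' (subset_closure hx))
      · rintro ⟨n, _, hsub⟩
        refine Filter.mem_of_superset ?_ hsub
        have hop : IsOpen ((QuotientAddGroup.mk : K → K ⧸ Q) '' V n) :=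
          QuotientAddGroup.isOpenMap_coe _ (hV n)
        exact hop.mem_nhds ⟨0, h0 n, rfl⟩
    haveI hcg : (𝓝 (0 : K ⧸ Q)).IsCountablyGenerated :=
      Filter.HasCountableBasis.isCountablyGenerated ⟨hbasis, Set.to_countable _⟩
    letI : UniformSpace (K ⧸ Q) := IsTopologicalAddGroup.rightUniformSpace (K ⧸ Q)
    haveI : IsUniformAddGroup (K ⧸ Q) := isUniformAddGroup_of_addCommGroup
    haveI : (uniformity (K ⧸ Q)).IsCountablyGenerated :=
      IsUniformAddGroup.uniformity_countably_generated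
    haveI : T2Space (K ⧸ Q) := inferInstance
    infer_instance

end

theorem pc2 : TaskPC2.{u} := by
  intro K _ _ _ _ _ f hf
  classical
  -- distinct elements
  have hx : ∀ i, ∃ x : ℕ → K, Function.Injective x ∧ ∀ n, x n ∈ Set.range fun x : K => f i • x := by
    intro i
    refine ⟨fun n => ((hf i).natEmbedding _ n : K), ?_, fun n => ((hf i).natEmbedding _ n).2⟩
    intro a b hab
    exact (hf i).natEmbedding _ |>.injective (Subtype.ext hab)
  choose x hxinj hxmem using hx
  -- neighbourhoods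
  obtain ⟨e, he⟩ : ∃ e : ℕ → ℕ × ℕ × ℕ, Function.Surjective e := by
    obtain ⟨e⟩ := (inferInstance : Nonempty (ℕ ≃ ℕ × ℕ × ℕ))
    exact ⟨e, e.surjective⟩
  let O : ℕ → Set K := fun n =>
    if (e n).2.1 = (e n).2.2 then Set.univ
    else {x (e n).1 (e n).2.1 - x (e n).1 (e n).2.2}ᶜ
  have hO : ∀ n, O n ∈ 𝓝 (0 : K) := by
    intro n
    simp only [O]
    split_ifs with h
    · exact Filter.univ_mem
    · apply isOpen_compl_singleton.mem_nhds
      intro h0
      rw [Set.mem_singleton_iff] at h0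
      apply h
      apply hxinj (e n).1
      exact (sub_eq_zero.1 h0.symm)
  obtain ⟨Q, hQ, hQO, hmet⟩ := exists_gdSub O hO
  have hdiff : ∀ i a b, a ≠ b → x i a - x i b ∉ Q := by
    intro i a b hab hmem
    obtain ⟨n, hn⟩ := he (i, a, b)
    have h1 := hQO n hmem
    simp only [O, hn] at h1
    rw [if_neg hab] at h1
    exact h1 rfl
  haveI : IsClosed (Q : Set K) := hQ.1
  haveI : T2Space (K ⧸ Q) := inferInstance
  have hinf : ∀ i, (Set.range fun y : K ⧸ Q => f i • y).Infinite := by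
    intro i
    apply Set.infinite_of_injective_forall_mem (f := fun n => ((x i n : K) : K ⧸ Q))
    · intro a b hab
      by_contra hne
      apply hdiff i a b hne
      rw [← QuotientAddGroup.eq_zero_iff]
      simp only at hab
      rw [QuotientAddGroup.mk_sub, hab, sub_self]
    · intro n
      obtain ⟨y, hy⟩ := hxmem i n
      refine ⟨(y : K ⧸ Q), ?_⟩
      simp only at hy ⊢
      rw [← hy]
      rfl
  let W : ℕ → Set ((K ⧸ Q) × (K ⧸ Q)) := fun i => {p | f i • (p.1 - p.2) ≠ 0}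
  have hWo : ∀ i, IsOpen (W i) := by
    intro i
    exact isOpen_ne_fun ((continuous_fst.sub continuous_snd).nsmul (f i)) continuous_const
  have hWd : ∀ i, Dense (W i) := by
    intro i
    rw [dense_iff_inter_open]
    intro U hU hne
    by_contra hcon
    obtain ⟨⟨a, b⟩, hab⟩ := hne
    rw [isOpen_prod_iff] at hU
    obtain ⟨A, B, hA, hB, haA, hbB, hsub⟩ := hU a b hab
    let φ : (K ⧸ Q) →+ (K ⧸ Q) := nsmulAddMonoidHom (f i)
    have hker : ∀ y ∈ A, y - b ∈ φ.ker := by
      intro y hy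
      by_contra hy2
      apply hcon
      refine ⟨(y, b), hsub ⟨hy, hbB⟩, ?_⟩
      intro h
      apply hy2
      rw [AddMonoidHom.mem_ker]
      exact h
    have hkopen : IsOpen (φ.ker : Set (K ⧸ Q)) := by
      apply AddSubgroup.isOpen_of_mem_nhds (g := a - b)
      have h1 : (fun y : K ⧸ Q => y + b) ⁻¹' A ∈ 𝓝 (a - b) := by
        apply (hA.preimage (continuous_id.add continuous_const)).mem_nhds
        simpa using haA
      refine Filter.mem_of_superset h1 ?_
      intro y hy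
      have := hker _ hy
      simpa using this
    haveI hfin : Finite ((K ⧸ Q) ⧸ φ.ker) := AddSubgroup.quotient_finite_of_isOpen _ hkopen
    have hfr : Finite φ.range := Finite.of_equiv _ (QuotientAddGroup.quotientKerEquivRange φ).toEquiv
    apply hinf i
    have : (Set.range fun y : K ⧸ Q => f i • y) = (φ.range : Set (K ⧸ Q)) := by
      ext y; simp [φ]
    rw [this]
    exact Set.toFinite _
  obtain ⟨h, hh⟩ := Pool.Agent.Helper520.CD.mycielski' W hWo hWd
  refine ⟨Q, fun b => Quotient.out (h b), hQ, ?_⟩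
  intro b b' hbb i hmem
  apply hh b b' hbb i
  rw [← QuotientAddGroup.eq_zero_iff] at hmem
  have h1 : ((Quotient.out (h b) : K) : K ⧸ Q) = h b := Quotient.out_eq' _
  have h2 : ((Quotient.out (h b') : K) : K ⧸ Q) = h b' := Quotient.out_eq' _
  show f i • (h b - h b') = 0
  rw [← hmem, ← h1, ← h2]
  rfl

end Pool.Agent.H973R3.PC2
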