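import Mathlib
import Pool.Agent.H376R3.PC.Defs

set_option autoImplicit false

universe u

namespace Pool.Agent.H973R3.PC7

open Cardinal Pool.Agent.H376R3.PC

theorem mk_le_of_hom {A B : Type u} [AddCommGroup A] [AddCommGroup B] (φ : A →+ B)
    (κ : Cardinal.{u}) (hκ : ℵ₀ ≤ κ) (h1 : #φ.range ≤ κ) (h2 : #φ.ker ≤ κ) : #A ≤ κ := by
  have e1 : A ≃ (A ⧸ φ.ker) × φ.ker := AddSubgroup.addGroupEquivQuotientProdAddSubgroup
  have e2 : (A ⧸ φ.ker) ≃ φ.range := (QuotientAddGroup.quotientKerEquivRange φ).toEquiv
  rw [Cardinal.mk_congr (e1.trans (e2.prodCongr (Equiv.refl _))), Cardinal.mk_prod,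
    Cardinal.lift_id, Cardinal.lift_id]
  calc _ ≤ κ * κ := mul_le_mul' h1 h2
    _ = κ := Cardinal.mul_eq_self hκ

theorem pc7 {G : Type u} [AddCommGroup G] (N p k : ℕ) (hp : p.Prime) (hN : 0 < N)
    (hk : p ^ (k + 1) ∣ N) (hinf : ℵ₀ ≤ #(V (G := G) p k))
    (hNG : #(Set.range fun x : G => N • x) ≤ #(V (G := G) p k)) :
    #(Set.range fun x : G => (N / p ^ (padicValNat p N) * p ^ k) • x) = #(V (G := G) p k) := by
  haveI := Fact.mk hp
  set v := padicValNat p N with hv
  set N' := N / p ^ v with hN'
  have hdvd : p ^ v ∣ N := pow_padicValNat_dvd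
  have hNeq : p ^ v * N' = N := Nat.mul_div_cancel' hdvd
  have hkv : k + 1 ≤ v := (padicValNat_dvd_iff_le hN.ne').1 hk
  have hcop : Nat.Coprime N' p := by
    have h1 := Nat.coprime_ordCompl hp hN.ne'
    rw [Nat.factorization_def N hp] at h1
    exact h1.symm
  set n := N' * p ^ k with hn
  set κ := #(V (G := G) p k) with hκ
  have hrk : ∀ x : G, x ∈ (Set.range fun x : G => n • x) → ∃ g, x = p ^ k • g := by
    rintro _ ⟨g, rfl⟩
    refine ⟨N' • g, ?_⟩
    simp only [hn, smul_smul]
    rw [mul_comm]
  apply le_antisymm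
  · -- the torsion subgroups
    let A : AddSubgroup G := (nsmulAddMonoidHom n : G →+ G).range
    have hAmem : ∀ x : G, x ∈ A ↔ x ∈ (Set.range fun x : G => n • x) := by
      intro x; simp [A]
    let T : ℕ → AddSubgroup G := fun j => A ⊓ (nsmulAddMonoidHom (p ^ j) : G →+ G).ker
    have hTmem : ∀ j x, x ∈ T j ↔ x ∈ A ∧ p ^ j • x = 0 := by
      intro j x
      simp [T, AddSubgroup.mem_inf, AddMonoidHom.mem_ker]
    have hT : ∀ j, #(T j) ≤ κ := by
      intro j
      induction j with
      | zero =>
        have h0 : ∀ x : T 0, x = 0 := by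
          intro x
          have := ((hTmem 0 x.1).1 x.2).2
          ext
          simpa using this
        haveI : Subsingleton (T 0) := ⟨fun a b => by rw [h0 a, h0 b]⟩
        exact (Cardinal.le_one_iff_subsingleton.2 inferInstance).trans
          (Cardinal.one_le_aleph0.trans hinf)
      | succ j ih =>
        let φ : T (j + 1) →+ G := (nsmulAddMonoidHom (p ^ j) : G →+ G).comp (T (j + 1)).subtype
        have hφ : ∀ x : T (j + 1), φ x = p ^ j • (x : G) := fun x => rfl
        apply mk_le_of_hom φ κ hinf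
        · apply Cardinal.mk_le_mk_of_subset
          rintro _ ⟨x, rfl⟩
          obtain ⟨hx1, hx2⟩ := (hTmem (j + 1) x.1).1 x.2
          rw [hφ]
          refine ⟨?_, ?_⟩
          · rw [smul_smul, ← pow_succ']; exact hx2
          · obtain ⟨g, hg⟩ := hrk _ ((hAmem _).1 hx1)
            refine ⟨p ^ j • g, ?_⟩
            rw [hg, smul_smul, smul_smul, mul_comm]
        · refine (Cardinal.mk_le_of_injective (f := fun x : φ.ker => (⟨x.1.1, ?_⟩ : T j)) ?_).trans ih
          · rw [hTmem]
            exact ⟨((hTmem (j + 1) x.1.1).1 x.1.2).1, by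
              have := x.2
              rw [AddMonoidHom.mem_ker, hφ] at this
              exact this⟩
          · intro a b hab
            simp only [Subtype.mk.injEq] at hab
            exact Subtype.ext (Subtype.ext hab)
    have hA : #A ≤ κ := by
      let φ : A →+ G := (nsmulAddMonoidHom (p ^ (v - k)) : G →+ G).comp A.subtype
      have hφ : ∀ x : A, φ x = p ^ (v - k) • (x : G) := fun x => rfl
      apply mk_le_of_hom φ κ hinf
      · refine le_trans (Cardinal.mk_le_mk_of_subset ?_) hNG
        rintro _ ⟨x, rfl⟩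
        obtain ⟨g, hg⟩ := (hAmem _).1 x.2
        refine ⟨g, ?_⟩
        rw [hφ, ← hg]
        simp only [smul_smul]
        congr 1
        rw [← hNeq, hn]
        have : p ^ v = p ^ (v - k) * p ^ k := by rw [← pow_add]; congr 1; omega
        rw [this]; ring
      · refine (Cardinal.mk_le_of_injective
          (f := fun x : φ.ker => (⟨x.1.1, ?_⟩ : T (v - k))) ?_).trans (hT _)
        · rw [hTmem]
          exact ⟨x.1.2, by
            have := x.2
            rw [AddMonoidHom.mem_ker, hφ] at this
            exact this⟩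
        · intro a b hab
          simp only [Subtype.mk.injEq] at hab
          exact Subtype.ext (Subtype.ext hab)
    have : (Set.range fun x : G => n • x) = (A : Set G) := by
      ext x; exact (hAmem x).symm
    rw [this]
    exact hA
  · apply Cardinal.mk_le_mk_of_subset
    rintro x ⟨hx1, g, hg⟩
    obtain ⟨a, ha⟩ := Nat.exists_mul_mod_eq_one_of_coprime hcop hp.one_lt
    refine ⟨a • g, ?_⟩
    have h1 : N' * a = p * (N' * a / p) + 1 := by
      have := Nat.div_add_mod (N' * a) p
      rw [ha.2] at this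
      omega
    simp only
    rw [hn, smul_smul]
    have h2 : N' * p ^ k * a = (N' * a) * p ^ k := by ring
    rw [h2, mul_smul, ← hg, h1, add_smul, one_smul, mul_comm p, mul_smul, hx1, smul_zero, zero_add]

end Pool.Agent.H973R3.PC7
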